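import Mathlib
import Pool.Agent.Helper78.RamseyDefs
import Pool.Agent.Helper95.RamDich.Cor

open Pool.Agent.Helper78.Ramsey
open Pool.Agent.Helper95.RamDich

namespace Pool.Agent.Results.MP_316f9b_lc.BelowTrivial

/-- For every `ε` with `0 < ε < 1/2` there are infinitely many `n` for which some graph on `n`
vertices has clique number at most `n^(1-ε-δ)`, `δ = ε / (4 log (16/ε))`, and forces a monochromatic
clique of the size `r(⌊n^(1-ε)⌋)` that is forced by a complete graph on `n^(1-ε)` vertices. -/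
theorem result (ε : ℝ) (hε : 0 < ε) (hε' : ε < 1 / 2) :
    {n : ℕ | ∃ G : SimpleGraph (Fin n),
      (G.cliqueNum : ℝ) ≤ (n : ℝ) ^ (1 - ε - ε / (4 * Real.log (16 / ε))) ∧
      Forces G (r ⌊(n : ℝ) ^ (1 - ε)⌋₊)}.Infinite := by
  have hθ0 : 0 < ε / 16 := by linarith
  have hθ1 : ε / 16 ≤ 1 / 2 := by linarith
  have hw := wts_of_theta hθ0 hθ1
  have hA := hw.log_pos
  have hB := hw.log_pos'
  -- names
  have e1 : (1 : ℝ) / (ε / 16) = 16 / ε := by rw [one_div_div]
  rw [e1] at hw hB
  set B : ℝ := Real.log (16 / ε) with hBd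
  set A : ℝ := Real.log (1 / (1 - ε / 16)) with hAd
  -- lower bound for B
  have h2 : (0.6931471803 : ℝ) < Real.log 2 := Real.log_two_gt_d9
  have hB5 : 5 * Real.log 2 ≤ B := by
    have h3 : (5 : ℝ) * Real.log 2 = Real.log (2 ^ 5) := by rw [Real.log_pow]; norm_num
    rw [h3, hBd]
    apply Real.log_le_log (by norm_num)
    rw [le_div_iff₀ hε]
    linarith
  have hB3 : (3.4 : ℝ) < B := by linarith
  -- upper bound for A
  have hden : (0 : ℝ) < 1 - ε / 16 := by linarith
  have hA1 : A ≤ 0.0646 * ε := by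
    have h3 : A ≤ 1 / (1 - ε / 16) - 1 := Real.log_le_sub_one_of_pos (by positivity)
    refine h3.trans ?_
    rw [div_sub_one hden.ne', div_le_iff₀ hden]
    nlinarith
  have hx : A / B ≤ 0.0095 := by
    rw [div_le_iff₀ hB]
    nlinarith
  have hx0 : 0 < A / B := by positivity
  set x : ℝ := A / B with hxd
  have hxB : x * B = A := by rw [hxd]; field_simp
  -- the exponents
  set δ : ℝ := ε / (4 * B) with hδ
  have hδ0 : 0 < δ := by positivity
  have hδB : δ * B = ε / 4 := by rw [hδ]; field_simp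
  have hδs : δ ≤ 0.08 * ε := by
    rw [hδ, div_le_iff₀ (by positivity)]
    nlinarith
  have hγ0 : 0 < 1 - ε - δ := by nlinarith
  refine good_of_lt hw (1 - ε - δ) (1 - ε) hγ0 (by linarith) (by linarith) (by linarith) ?_
  show 2 * ((A + B) * (1 - ε - (1 - ε - δ) * (1 - x))) < (1 - (1 - ε - δ) * (1 - x)) * Real.log 2
  set γ : ℝ := 1 - ε - δ with hγ
  have h4 : (A + B) * (1 - ε - γ * (1 - x)) = (1 + x) * (ε / 4 + γ * A) := by
    have : A + B = (1 + x) * B := by rw [← hxB]; ring
    rw [this]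
    have h5 : (1 : ℝ) - ε - γ * (1 - x) = δ + γ * x := by rw [hγ]; ring
    rw [h5]
    calc (1 + x) * B * (δ + γ * x) = (1 + x) * (δ * B + γ * (x * B)) := by ring
      _ = (1 + x) * (ε / 4 + γ * A) := by rw [hδB, hxB]
  rw [h4]
  have hγ1 : γ ≤ 1 := by linarith
  have h6 : γ * A ≤ 0.0646 * ε := by nlinarith
  have h7 : (1 + x) * (ε / 4 + γ * A) ≤ 1.0095 * (0.3146 * ε) := by
    apply mul_le_mul
    · linarith
    · linarith
    · positivity
    · norm_num
  have h8 : ε ≤ 1 - γ * (1 - x) := by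
    have : (1 : ℝ) - γ * (1 - x) = ε + δ + γ * x := by rw [hγ]; ring
    rw [this]
    have : 0 < γ * x := by positivity
    linarith
  have h9 : ε * 0.6931471803 ≤ (1 - γ * (1 - x)) * Real.log 2 := by
    apply mul_le_mul h8 h2.le (by norm_num) (by linarith)
  nlinarith

end Pool.Agent.Results.MP_316f9b_lc.BelowTrivial
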