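import Mathlib
import Pool.Agent.Helper78.RamseyDefs
import Pool.Agent.Helper95.RamDich.Cor

open Pool.Agent.Helper78.Ramsey
open Pool.Agent.Helper95.RamDich

namespace Pool.Agent.Results.MP_316f9b_lc.EveryEps

/-- For every `ε` with `0 < ε < 1/2` there are infinitely many `n` for which some graph on `n`
vertices has clique number at most `n^ε` and forces a monochromatic clique of size
`r(⌊n^(0.189+0.698ε)⌋)`. -/
theorem result (ε : ℝ) (hε : 0 < ε) (hε' : ε < 1 / 2) :
    {n : ℕ | ∃ G : SimpleGraph (Fin n), (G.cliqueNum : ℝ) ≤ (n : ℝ) ^ ε ∧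
      Forces G (r ⌊(n : ℝ) ^ (0.189 + 0.698 * ε)⌋₊)}.Infinite :=
  good_explicit ε hε hε'

end Pool.Agent.Results.MP_316f9b_lc.EveryEps
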