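import Mathlib
import Pool.Agent.Helper78.RamseyDefs
import Pool.Agent.Helper78.RamseyFinal

open Pool.Agent.Helper78.Ramsey

namespace Pool.Agent.Results.MP_316f9b_lc.NearHalf

/-- Q1 of MP_316f9b_lc has a positive answer for every `ε` with `0.4712 ≤ ε < 1/2`. -/
theorem result (ε : ℝ) (hε : 0.4712 ≤ ε) (hε' : ε < 1 / 2) :
    {n : ℕ | ∃ G : SimpleGraph (Fin n), (G.cliqueNum : ℝ) ≤ (n : ℝ) ^ ε ∧
      Forces G (r ⌊(n : ℝ) ^ (1 - ε)⌋₊)}.Infinite :=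
  main ε hε hε'

end Pool.Agent.Results.MP_316f9b_lc.NearHalf
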