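import Mathlib
import Pool.Agent.Helper78.RamseyDefs
import Pool.Agent.Helper95.RamDich.Cor

open Pool.Agent.Helper78.Ramsey
open Pool.Agent.Helper95.RamDich

namespace Pool.Agent.Results.MP_316f9b_lc.NegationBound

/-- If Q1 of MP_316f9b_lc has a negative answer for some `ε` with `0 < ε < 1/2`, then for every
`θ` in `(0, 1/2]` the diagonal Ramsey numbers satisfy `R(k,k) ≤ exp((κ + o(1)) k)`, where
`κ = (a+b)(1-ε-ε(1-a/b))/(1-ε(1-a/b))`, `a = log(1/(1-θ))`, `b = log(1/θ)`. -/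
theorem result (ε θ : ℝ) (hε : 0 < ε) (hε' : ε < 1 / 2) (hθ : 0 < θ) (hθ' : θ ≤ 1 / 2)
    (hfail : ¬ {n : ℕ | ∃ G : SimpleGraph (Fin n), (G.cliqueNum : ℝ) ≤ (n : ℝ) ^ ε ∧
      Forces G (r ⌊(n : ℝ) ^ (1 - ε)⌋₊)}.Infinite) (δ : ℝ) (hδ : 0 < δ) :
    ∀ᶠ k : ℕ in Filter.atTop,
      Forces (⊤ : SimpleGraph (Fin ⌈Real.exp
        (((Real.log (1 / (1 - θ)) + Real.log (1 / θ)) *
            (1 - ε - ε * (1 - Real.log (1 / (1 - θ)) / Real.log (1 / θ))) /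
              (1 - ε * (1 - Real.log (1 / (1 - θ)) / Real.log (1 / θ))) + δ) * k)⌉₊)) k :=
  forces_of_fail ε θ hε hε' hθ hθ' hfail δ hδ

end Pool.Agent.Results.MP_316f9b_lc.NegationBound
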